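import Pool.Agent.Q230.TGM.PT

/-!
# Testing simultaneous graphicness of temporal sequences of matroids is NP-hard

The matroids are given explicitly, each as the cycle matroid of a given graph with labelled edges.
All instances produced by the reduction are temporal sequences of (graphic) matroids.

**Proof.** The reduction is from monotone not-all-equal 3SAT with distinct variables in each clause.
Let `X` be the set of the variables, with elements `x_v`, `e_v` for `v` in `X` and a further element
`f`. The matroid `A` has the circuits `{f, x_v, e_v}`: in each graph `G` with the cycle matroid `A`
these are triangles, so that each `x_v` is at one of the two ends of `f`, independently of the other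
variables. This is the truth value of `v`. Delete all `e_v`: nothing can be contracted without making
`f` and `x_v` parallel; the result is a tree, a double star with the centre edge `f`. Next remove `f`;
its deletion leaves two stars and its contraction one star; both have the free matroid `F`. For a
clause `{i, j, k}` the matroid `B` has the elements `x_v` and two new ones `g`, `h`, and one circuit
`{x_i, x_j, x_k, g, h}`. If the stars are a minor of a graph with the cycle matroid `B` by removing `g`
and `h`, then a parity argument shows that neither `g` nor `h` is contracted, that `f` was not
contracted, and that `x_i`, `x_j`, `x_k` are not all in the same star (no vertex has degree three in a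
cycle of length five). Conversely, if two of the three edges are in one star and the third one is
in the other star, then the two new edges can be drawn so that the five edges form a circuit. So in the
sequence `A, F0, F, B, F, F0, A` both graphs of `A` give the same partition of the variables, and this
partition is good for the clause. The whole sequence concatenates these parts for all clauses.
-/

set_option autoImplicit false

namespace Pool.Agent.Results.MP_bd026d_co.TemporalNPHard

open Pool.Agent.NPC Pool.Agent.Q230.TGM

/-- Every problem in NP reduces in polynomial time to the problem whether a temporal sequence of
matroids, given by graphs, is simultaneously graphic. -/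
theorem result (L : Set (List Bool)) (hL : InNP L) :
    ∃ f : List Bool → List (List (ℕ × ℕ × ℕ)), PolyTime (fun x => bits (f x)) ∧
      ∀ x, Temporal (matroids (f x)) ∧ (x ∈ L ↔ SimGraphic (matroids (f x))) := by
  have h : HardPr (fun I => Temporal (matroids I)) fun I => SimGraphic (matroids I) :=
    hardPr_dist.trans inst_poly (fun φ _ => inst_temporal φ) fun φ hφ => inst_correct hφ
  obtain ⟨f, h1, h2, h3⟩ := h L hL
  exact ⟨f, PC.toPolyTime h1, fun x => ⟨h2 x, h3 x⟩⟩

end Pool.Agent.Results.MP_bd026d_co.TemporalNPHard
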